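import Mathlib
import Pool.Agent.H175.IE.Main

/-!
# The gap above `1/3` for posets with a chain as a component

`balance` is the balance constant `δ` of the problem.  `Autonomous M` means that every element
outside `M` has the same relation to all elements of `M` (for instance `M` is the whole poset).

Let `M` be an autonomous subset of a finite poset `P` which is the disjoint sum of a chain `C` and an
ARBITRARY nonempty poset `D` (no element of `C` is comparable to an element of `D`).

* If `C` has at least six elements, then `δ(P) ≥ 1/3 + 1/1000`.
* If `C` has one element (or at least `3 |D| - 1` elements), then `δ(P) ≥ 1/3`, and there is an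
  absolute constant `ε > 0` such that `δ(P) ≥ 1/3 + ε` unless `M` is the poset with three elements
  and one relation.

In particular every finite poset which has a chain with one element or with at least six elements as
a proper component (of the comparability graph) satisfies the `1/3`-`2/3` conjecture, with equality
only for the poset with three elements and one relation, and with a uniform gap otherwise.  The
chains with `2`, `3`, `4` and `5` elements remain (for `3 |D| > |C| + 1`).

**Proof.**  *One element.*  If `x` is incomparable to the `m` other elements then `P(x before v) =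
(1 + s(v)) / (m + 1)` with `s(v) = ∑ P(u before v)`, the sum over the other elements `u ≠ x`.  If all
pairs were unbalanced, the majority relation would be a linear order (library), an element `v` with
`b` predecessors has `2 b / 3 ≤ s(v) ≤ b + (m - 1 - b) / 3`, and the middle element contradicts this,
except if `m` is even and there is equality everywhere; then all elements after `v` are above `v`,
nothing is below `v`, and an exchange of `v` and of a maximal element `w` of the predecessors gives
`P(w before v) ≤ 1/2`.

*At least six elements.*  Let `N(y)` be the number of elements of the chain before the element `y` of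
`D`, and `k` the number of elements of the chain.  If `δ(P) < 1/3 + η`, `η = 1/1000`, there is an `i`
with `P(N(y) ≥ i) ≥ 2/3 - η` and `P(N(y) ≥ i + 1) ≤ 1/3 + η`, so `P(N(y) = i) ≥ 1/3 - 2 η`.  The
distribution of `N(y)` is a mixture of binomial distributions with `k` trials, and
`C(k, i) s^i t^(k - i) < (100/303) (s + t)^k` for `k ≥ 6` and `2 ≤ i ≤ k - 2` (`bin_lt`).  So `i` is
one of `0`, `1`, `k - 1`, `k`, and `P(N(y) ≤ 1) + P(N(y) ≥ k - 1) ≥ 2/3 - η` for ALL `y`.  But the sum
of the left hand side over the `y` in `D` is the mean number of elements of `D` in four of the `k + 1`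
gaps of the chain, which is `4 |D| / (k + 1) ≤ 4 |D| / 7`, a contradiction.  (Six is the limit of this
argument: for five elements `C(5, 2) (2/5)^2 (3/5)^3 = 0.3456`, and `4/6 = 2/3`.)

*At least `3 |D| - 1` elements.*  The probability that exactly `i` elements of the chain come before
`y` is less than `|D| / (k + 1)` (or `|D| = 1`), so the probabilities `P(x_i before y)` cannot jump
over `[1/3, 2/3]`.

The uniform gap `ε` follows, as posets with an element incomparable to many elements are nearly
balanced (library), and for a bounded number of elements the balance constant is a fraction with a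
bounded denominator.
-/

set_option autoImplicit false

namespace Pool.Agent.Results.MP_33fb9b_co.ChainSummand

open Pool.Agent.H13R3.WB (balance)
open Pool.Agent.H931R3.Bal (Autonomous)

theorem result : ∃ ε : ℝ, 0 < ε ∧ ∀ (P : Type) [Fintype P] [PartialOrder P] (M C : Set P),
    Autonomous M → C ⊆ M → C.Nonempty → (M \ C).Nonempty → IsChain (· ≤ ·) C →
    (∀ x ∈ C, ∀ y ∈ M \ C, ¬ x ≤ y ∧ ¬ y ≤ x) →
    (Nat.card C = 1 ∨ 6 ≤ Nat.card C ∨ 3 * Nat.card ↑(M \ C) ≤ Nat.card C + 1) →
    1 / 3 ≤ balance P ∧ (Nonempty (M ≃o (Fin 2 ⊕ Fin 1)) ∨ 1 / 3 + ε ≤ balance P) ∧
      (6 ≤ Nat.card C → 1 / 3 + 1 / 1000 ≤ balance P) := by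
  obtain ⟨ε, h0, h⟩ := Pool.Agent.H175.IE.main
  refine ⟨ε, h0, ?_⟩
  intro P _ _ M C hM hCM hC hD hch hinc hcard
  have h1 := h P M C hM hCM hC hD hch hinc hcard
  exact ⟨h1.1, h1.2, Pool.Agent.H175.IE.main_six P M C hM hCM hD hch hinc⟩

end Pool.Agent.Results.MP_33fb9b_co.ChainSummand
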