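import Mathlib
import Pool.Agent.H3.Forest.ForestGap
import Pool.Agent.H3.Her.Main

/-!
# The gap above `1/3` for posets whose cover graph is a forest

`balance` is the balance constant and `InD` the class `𝒟` of the problem. The inequality `δ(P) ≥ 1/3` for
posets whose cover graph is a forest is a theorem of Zaguia; there is no gap in it. Here there is an
absolute constant `ε > 0` with the following properties.

* `P ∈ 𝒟` or `δ(P) ≥ 1/3 + ε` for every finite poset `P` whose cover graph is a forest in which every
  element with exactly one lower and exactly one upper cover has distance at least four from every element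
  of the same component with exactly one neighbour (`SparseForest P`), and for all posets built from
  such posets by disjoint sums and direct sums (`Built`). There is no condition on the other elements; so
  this holds for example if every element which is neither minimal nor maximal has at least three
  neighbours.
* `δ(P) ≤ 1/3` or `δ(P) ≥ 1/3 + ε` for every finite poset `P` whose cover graph is a forest. So the gap
  of the problem for all forests is reduced to the equality `δ(P) = 1/3`.
* For every `c < 1/2` all but finitely many of the posets whose cover graph is a forest, and which are not
  a direct sum of two nonempty posets, have `δ(P) > c` (if they have more than `N(c)` elements).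

Proof of the first part. A component of a forest is a tree, and the gap is inherited by disjoint and direct
sums (a starting file). By the theorem on cycles of arrows (a starting file) it is enough to find, if the
tree has at least three elements, two elements with an arrow in both directions. Suppose that there are
none. Two minimal elements whose sets of larger elements are chains which are not nested would be such
a pair; the same holds for maximal elements. Hence the tree without its leaves has at most two ends,
and it is a path (count the edges). Near an end of this path there is such a pair in each of about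
twenty cases. The number four cannot be replaced by three in this argument: if the path
`4 < 2 > 0 < 1 < 3 > 5 < 6` is the cover graph there is no cycle of arrows.

Proof of the other parts. The intervals of such a poset are chains, so its incomparability graph has no
induced path with six vertices; hence its components have bounded diameter, and the starting results on
thin posets bound the number of elements of a component if the balance constant is less than `c`.
-/

set_option autoImplicit false

namespace Pool.Agent.Results.MP_33fb9b_co.ForestCoverGraphs

open Pool.Agent.H13R3.WB Pool.Agent.H931R3.Bal Pool.Agent.H3.Forest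

theorem result :
    (∃ ε : ℝ, 0 < ε ∧
      (∀ (R : Type) [Fintype R] [PartialOrder R],
        Built (fun P _ => Nonempty P ∧ SparseForest P) R → InD R ∨ 1 / 3 + ε ≤ balance R) ∧
      ∀ (P : Type) [Fintype P] [PartialOrder P], (SimpleGraph.hasse P).IsAcyclic →
        balance P ≤ 1 / 3 ∨ 1 / 3 + ε ≤ balance P) ∧
    ∀ c : ℝ, c < 1 / 2 → ∃ N : ℕ, ∀ (P : Type) [Fintype P] [PartialOrder P],
      (SimpleGraph.hasse P).IsAcyclic → Pool.Agent.H3.Her.Indecomposable P →
        N < Fintype.card P → c < balance P := by
  have hC := Pool.Agent.H3.Her.DiamondFree.hereditary
  have hm : ¬ (fun (P : Type) (_ : PartialOrder P) => Pool.Agent.H3.Her.DiamondFree P)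
      (Pool.Agent.H3.Her.Zig 6) inferInstance := Pool.Agent.H3.Her.not_diamondFree_zig
  constructor
  · obtain ⟨ε₁, h1, g1⟩ := forest_gap
    obtain ⟨ε₂, h2, g2⟩ := Pool.Agent.H3.Her.gap_above
      (S := {v : ℝ | ∃ (P : Type) (_ : Fintype P) (_ : PartialOrder P),
        Pool.Agent.H3.Her.DiamondFree P ∧ balance P = v})
      (fun c' hc' => Pool.Agent.H3.Her.spectrum hC hm c' hc') (1 / 3) (by norm_num)
    have m1 := min_le_left ε₁ ε₂
    have m2 := min_le_right ε₁ ε₂
    refine ⟨min ε₁ ε₂, lt_min h1 h2, fun R _ _ hR => ?_, fun P _ _ hP => ?_⟩
    · rcases g1 R hR with h | h
      · exact Or.inl h
      · exact Or.inr (by linarith)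
    · rcases g2 _ ⟨P, inferInstance, inferInstance,
        Pool.Agent.H3.Her.diamondFree_of_acyclic hP, rfl⟩ with h | h
      · exact Or.inl h
      · exact Or.inr (by linarith)
  · intro c hc
    obtain ⟨B, hB, hG⟩ := Pool.Agent.H3.Her.exists_good
    set ε : ℝ := min (1 / 2) ((1 / 2 - c) / 2) with hε
    have hε0 : 0 < ε := lt_min (by norm_num) (by linarith)
    have hεc : c < 1 / 2 - ε := by
      have := min_le_right (1 / 2) ((1 / 2 - c) / 2)
      rw [← hε] at this
      linarith
    exact ⟨Pool.Agent.H3.Her.KK B ε ^ 6, fun P _ _ hP hI hcard =>
      hεc.trans_le (Pool.Agent.H3.Her.size_bound hG hC hm hε0 (min_le_left _ _) P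
        (Pool.Agent.H3.Her.diamondFree_of_acyclic hP) hI hcard)⟩

end Pool.Agent.Results.MP_33fb9b_co.ForestCoverGraphs
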