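import Mathlib
import Pool.Agent.H552.PD.Gap

/-!
# The `1/3`-`2/3` conjecture with a gap for planar distributive lattices

The balance constant `balance` is the one of the problem.

There is an absolute constant `ε > 0` such that every finite distributive lattice of breadth at most two
(the join of any three elements is the join of two of them) is a chain or has balance constant at least
`1/3 + ε`.  These are the finite distributive lattices of order dimension at most two, in other words the
planar ones, the lattices of down-sets of the posets of width at most two, and the finite sublattices of
products of two chains; the second and the third part of the theorem are the (easy) implications which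
are needed to apply the first part to them.  So the `1/3`-`2/3` conjecture holds for all planar distributive lattices,
with a uniform gap.  Products of two chains (Young diagrams) are the only ones of these for which this
was known.

Proof.  Let `J` be the set of the join-irreducible elements.  They are join-prime, so `J` has width at
most two and is the union of two chains; the numbers of elements of the two chains below `x` are two
coordinates `a x`, `b x` of `x`, which respect joins and meets (`Emb`).  Suppose that there are three
pairwise incomparable elements.  Choose `x` such that `x` is the last element of its row (largest `b`
for the given `a`), there are `v`, `w` with `a x < a v < a w` and `b x > b v > b w`, and `a x` is as small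
as possible.  Then there is an element `y` in the next row (the next value of `a`) and in the previous
column.  An element below `x` in the column of `x` would be in an earlier row, and the last element of
this row would be a better choice; so the elements below `x` are below `y`.  The elements above `x` are
above `y`, as `x` is the last element of its row.  The elements below `y` and not below `x` are in the
row of `y`, those above `y` and not above `x` are in the column of `y`; so they form two chains, and `v`,
`w` show that they are not empty (`Grid`).  An earlier result on such pairs gives the gap.  If there are
no three pairwise incomparable elements, then earlier results on posets of width two show that the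
lattice is in `𝒟` or there is a gap; and a modular lattice in `𝒟` is a chain, since an autonomous copy
of `2 + 1` in a lattice generates a pentagon (`Gap`).
-/

set_option autoImplicit false

namespace Pool.Agent.Results.MP_33fb9b_co.PlanarDistributive

open Pool.Agent.H13R3.WB Pool.Agent.H552.PD

theorem result :
    (∃ ε : ℝ, 0 < ε ∧ ∀ (L : Type) [Fintype L] [DistribLattice L],
      (∀ a b c : L, a ≤ b ⊔ c ∨ b ≤ a ⊔ c ∨ c ≤ a ⊔ b) →
        (∀ x y : L, x ≤ y ∨ y ≤ x) ∨ 1 / 3 + ε ≤ balance L) ∧
    (∀ (L α β : Type) [Lattice L] [LinearOrder α] [LinearOrder β], Nonempty (L ↪o α × β) →
      ∀ a b c : L, a ≤ b ⊔ c ∨ b ≤ a ⊔ c ∨ c ≤ a ⊔ b) ∧
    ∀ (P : Type) [PartialOrder P], (∀ s : Finset P, IsAntichain (· ≤ ·) (s : Set P) → s.card ≤ 2) →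
      ∀ a b c : LowerSet P, a ≤ b ⊔ c ∨ b ≤ a ⊔ c ∨ c ≤ a ⊔ b :=
  ⟨planar_gap, fun _ α β _ _ _ ⟨f⟩ => breadth_of_dim α β f, fun P _ h => breadth_lowerSet P h⟩

end Pool.Agent.Results.MP_33fb9b_co.PlanarDistributive
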