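import Mathlib
import Pool.Agent.H552.TO.Tri

/-!
# The `1/3`-`2/3` conjecture with a gap for `(3 + 1)`-free posets

The balance constant `balance` and the class `InD` (the class `𝒟`) are those of the problem.

There is an absolute constant `ε > 0` such that every finite `(3 + 1)`-free poset (a poset without a
chain of three elements and an element incomparable to all of them; in other words, a poset whose
incomparability graph is claw-free) is a chain, or is in `𝒟` and has balance constant exactly `1/3`, or
has balance constant at least `1/3 + ε`.  So the `1/3`-`2/3` conjecture holds for these posets, with
equality exactly for the members of `𝒟` which are not chains, and there is a gap above `1/3`.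
Semiorders and posets of height two are special cases.  More generally this trichotomy holds for the
class `Cls` of the file `Pool.Agent.H552.TO.Final`, which contains

* the nonempty `(3 + 1)`-free posets and the nonempty posets of width at most two,
* the posets which contain an induced `2 + 2` and in which the lower elements of every induced `2 + 2`
  have the same lower elements and its upper elements have the same upper elements,
* the posets which contain a tangle with at least three elements: two antichains `B` and `T`, the
  elements of `T` not below elements of `B`, every element of `B` below an element of `T`, every element
  of `T` above an element of `B`, such that no element outside `B ∪ T` distinguishes two elements of `B`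
  or two elements of `T`,
* the posets with a crowd: a set `B` of elements with the same lower elements, each of which is
  incomparable to at most `(9 |B| - 12) / 4` elements which lie in `B` or above an element of `B`,

and which is closed under duality, disjoint sums, direct sums, and under the passage from an autonomous
subset outside of `𝒟` to the poset which contains it.

Proof.  Let `B` be a set of `m` elements with the same lower elements, and let `Q` be the union of `B`
and the set of all elements which are above some but not all elements of `B`.  Let `x` be in `B`.  In a
linear extension let `q` be the last element of `Q` before `x`.  If `q` and `x` are incomparable, then
they can be exchanged: an element between them and above `q` would be above an element of `B` and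
outside of `Q`, so above `x`, and an element between them and below `x` would be below all elements of
`B`, so below `q`.  Hence the linear extensions are partitioned into chains on which the number of the
elements of `Q` before `x` runs through an initial interval, each number once (`Swap`, `Chain`).  If
there is no gap, then by the theorem on majority cycles (an earlier result) the elements of `B` have a
last element `x` and a last element `y` but one.  The `i`-th of the other elements of `B` is after `y`
for at least `min (i, s)` members of a chain of `y` of length `s`; by convexity the mean of `s` is at
least `3 (m - 1) / 2`, up to `ε` (`claimA`).  The chains of `x` are bounded by the number of elements of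
`Q` incomparable to `x`, which bounds from below the probability that `x` is before `y` (`claimB`); both
together give `9 m - 12 < 4 K`, where `K` bounds the numbers of elements of `Q` incomparable to an
element of `B` (`core`).  So a crowd gives a gap.  A tangle with at least four elements in `B` or in `T`
has a crowd, in the poset or in its dual; a smaller one has a good pair which is not exceptional, and an
earlier result gives the gap (`Tangle`).

In a `(3 + 1)`-free poset the lower elements of an induced `2 + 2` have the same lower elements, and its
upper elements the same upper elements.  If this holds for all induced `2 + 2` of a poset, and there is
one, then a connected component of the relation to be the lower elements of an induced `2 + 2`, together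
with the elements which distinguish two of its elements, is a tangle (`Struct`).  A `(3 + 1)`-free poset
without an induced `2 + 2` is a semiorder; for these, and for width two, the gap is an earlier result,
as is its inheritance by sums and by posets with autonomous subsets.
-/

set_option autoImplicit false

namespace Pool.Agent.Results.MP_33fb9b_co.ThreePlusOneFree

open Pool.Agent.H13R3.WB Pool.Agent.H552.TO

/-- There is an absolute constant `ε > 0` such that every finite nonempty `(3 + 1)`-free poset, and more
generally every finite poset in the class `Cls`, is a chain, or is in `𝒟` with balance constant exactly
`1/3`, or has balance constant at least `1/3 + ε`. -/
theorem result : ∃ ε : ℝ, 0 < ε ∧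
    (∀ (R : Type) [Fintype R] [PartialOrder R], Nonempty R → ThreeOneFree R →
      (∀ x y : R, x ≤ y ∨ y ≤ x) ∨ (InD R ∧ balance R = 1 / 3) ∨ 1 / 3 + ε ≤ balance R) ∧
    ∀ (R : Type) [Fintype R] [PartialOrder R], Cls R →
      (∀ x y : R, x ≤ y ∨ y ≤ x) ∨ (InD R ∧ balance R = 1 / 3) ∨ 1 / 3 + ε ≤ balance R := by
  obtain ⟨ε, hε, h⟩ := all_gap
  have key : ∀ (R : Type) [Fintype R] [PartialOrder R], Cls R →
      (∀ x y : R, x ≤ y ∨ y ≤ x) ∨ (InD R ∧ balance R = 1 / 3) ∨ 1 / 3 + ε ≤ balance R := by
    intro R _ _ hR
    rcases h R hR with h1 | h1
    · rcases InD_values h1 with h2 | h2
      · exact Or.inl h2.1
      · exact Or.inr (Or.inl ⟨h1, h2⟩)
    · exact Or.inr (Or.inr h1)
  exact ⟨ε, hε, fun R _ _ hne hR => key R (Cls.free R hne hR), key⟩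

end Pool.Agent.Results.MP_33fb9b_co.ThreePlusOneFree
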